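import Pool.Agent.H.MP_572a82_pr.C

namespace Pool.Agent.Results.MP_572a82_pr.Frag
open Filter

/-- Adding an edge between two vertices in different components keeps a graph in the set. -/
def BridgeAddable {n : ℕ} (A : Set (SimpleGraph (Fin n))) : Prop :=
  ∀ G ∈ A, ∀ u v : Fin n, ¬ G.Reachable u v → G ⊔ SimpleGraph.edge u v ∈ A

/-- The number of vertices of a largest component. -/
noncomputable def bigSize {n : ℕ} (G : SimpleGraph (Fin n)) : ℕ :=
  Finset.univ.sup (fun u : Fin n => {z : Fin n | G.Reachable u z}.ncard)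

/-- The number of vertices outside a largest component. -/
noncomputable def frag {n : ℕ} (G : SimpleGraph (Fin n)) : ℕ := n - bigSize G

/-- The expected fragment size of a uniformly random member of A. -/
noncomputable def expFrag {n : ℕ} (A : Set (SimpleGraph (Fin n))) : ℝ :=
  (∑ G ∈ (Set.toFinite A).toFinset, (frag G : ℝ)) / A.ncard

theorem frag_eq {n : ℕ} (G : SimpleGraph (Fin n)) : frag G = H.BA.frag G := by
  unfold frag bigSize H.BA.frag H.BA.big
  rw [Fintype.card_fin]
  congr 2
  ext u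
  rw [← Set.ncard_coe_finset]
  congr 1
  ext z
  simp [H.BA.mem_comp]

theorem uniform (ε : ℝ) (hε : 0 < ε) : ∃ n0 : ℕ, ∀ n ≥ n0, ∀ A : Set (SimpleGraph (Fin n)),
    BridgeAddable A → A.Nonempty → expFrag A ≤ 1 + ε := by
  obtain ⟨n0, h⟩ := H.BA.main ε hε
  refine ⟨n0, fun n hn A hA hne => ?_⟩
  have h1 := h n hn (Set.toFinite A).toFinset (by
    intro G hG e he
    rw [Set.Finite.mem_toFinset] at hG ⊢
    exact hA G hG e.1 e.2 (fun h => H.BA.mem_X.1 he (H.BA.mem_comp.2 h)))
  have hpos : (0 : ℝ) < A.ncard := by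
    exact_mod_cast (Set.ncard_pos (Set.toFinite A)).2 hne
  unfold expFrag
  rw [div_le_iff₀ hpos, Set.ncard_eq_toFinset_card A (Set.toFinite A), mul_comm]
  simpa only [frag_eq] using h1

theorem result :
    (∀ ε : ℝ, 0 < ε → ∃ n0 : ℕ, ∀ n ≥ n0, ∀ A : Set (SimpleGraph (Fin n)),
      BridgeAddable A → A.Nonempty → expFrag A ≤ 1 + ε) ∧
    (∀ A : (n : ℕ) → Set (SimpleGraph (Fin n)), (∀ n, BridgeAddable (A n)) →
      (∀ n, 1 ≤ n → (A n).Nonempty) →
      limsup (fun n => ((expFrag (A n) : ℝ) : EReal)) atTop ≤ 1) := by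
  refine ⟨uniform, fun A hA hne => ?_⟩
  apply le_of_forall_gt_imp_ge_of_dense
  intro c hc
  induction c with
  | bot => exact absurd hc (by simp)
  | top => exact le_top
  | coe c =>
    have hc' : (1 : ℝ) < c := by exact_mod_cast hc
    obtain ⟨n0, h⟩ := uniform (c - 1) (by linarith)
    apply limsup_le_of_le (by isBoundedDefault)
    filter_upwards [eventually_ge_atTop n0, eventually_ge_atTop 1] with n h0 h1
    have := h n h0 (A n) (hA n) (hne n h1)
    exact_mod_cast (by linarith : expFrag (A n) ≤ c)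

end Pool.Agent.Results.MP_572a82_pr.Frag
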